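import Pool.Agent.N115.JT.Stm

/-!
# JT/2: the base field

Project JT (helper115), this file by helper849.
-/

set_option autoImplicit false

namespace Pool.Agent.N849.JT

theorem alg_map {A B Ω : Type} [Field A] [Field B] [Field Ω] [Algebra A Ω] [Algebra B Ω]
    (i : A →+* B) (hi : ∀ a, algebraMap B Ω (i a) = algebraMap A Ω a) {x : Ω}
    (hx : IsAlgebraic A x) : IsAlgebraic B x := by
  obtain ⟨p, hp, hpx⟩ := hx
  refine ⟨p.map i, ?_, ?_⟩
  · rwa [Ne, Polynomial.map_eq_zero_iff i.injective]
  · rw [Polynomial.aeval_def, Polynomial.eval₂_map]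
    have e : (algebraMap B Ω).comp i = algebraMap A Ω := RingHom.ext hi
    rw [e, ← Polynomial.aeval_def]
    exact hpx

theorem trdeg_alg (k A B : Type) [Field k] [Field A] [Field B] [Algebra k A] [Algebra A B]
    [Algebra k B] [IsScalarTower k A B] [Algebra.IsAlgebraic A B] :
    Algebra.trdeg k A = Algebra.trdeg k B := by
  have h := trdeg_add_eq k A (A := B)
  rw [trdeg_eq_zero (R := A) (A := B), add_zero] at h
  exact h

theorem main : Pool.Agent.N115.JT.BaseField := by
  intro k L Ω _ _ _ _ _ _ _ _ _ _ V hV L0 hL0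
  set F0 := IntermediateField.adjoin k V with hF0
  have hVF : ∀ v ∈ V, v ∈ F0 := fun v hv => IntermediateField.subset_adjoin k V hv
  have : IsAlgClosure L Ω := ⟨inferInstance, inferInstance⟩
  -- part 1
  have h1 : ∀ v ∈ V, IsAlgebraic L0 v := by
    intro v hv
    have hvi : IsAlgebraic L v := Algebra.IsAlgebraic.isAlgebraic v
    have hint : IsIntegral L v := hvi.isIntegral
    set f := minpoly L v with hf
    have hsplit : (f.map (algebraMap L Ω)).Splits := IsAlgClosed.splits _
    have hmonic : (f.map (algebraMap L Ω)).Monic := (minpoly.monic hint).map _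
    have hprod : f.map (algebraMap L Ω) =
        ((f.map (algebraMap L Ω)).roots.map fun r => Polynomial.X - Polynomial.C r).prod :=
      hsplit.eq_prod_roots_of_monic hmonic
    have hroot : ∀ r ∈ (f.map (algebraMap L Ω)).roots, r ∈ F0 := by
      intro r hr
      have h2 : Polynomial.aeval r f = 0 := by
        rw [Polynomial.mem_roots'] at hr
        rw [Polynomial.aeval_def, ← Polynomial.eval_map]
        exact hr.2
      obtain ⟨g, hg⟩ := minpoly.exists_algEquiv_of_root' hvi h2
      rw [← hg]
      exact hVF _ (hV g v hv)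
    have hlift : f.map (algebraMap L Ω) ∈ Polynomial.lifts (algebraMap F0 Ω) := by
      rw [hprod]
      refine Subsemiring.multiset_prod_mem _ _ fun p hp => ?_
      rw [Multiset.mem_map] at hp
      obtain ⟨r, hr, rfl⟩ := hp
      rw [Polynomial.mem_lifts]
      refine ⟨Polynomial.X - Polynomial.C ⟨r, hroot r hr⟩, ?_⟩
      rw [Polynomial.map_sub, Polynomial.map_X, Polynomial.map_C]
      rfl
    have hcoef : ∀ n, f.coeff n ∈ L0 := by
      intro n
      rw [hL0]
      rw [Polynomial.lifts_iff_coeff_lifts] at hlift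
      obtain ⟨c, hc⟩ := hlift n
      rw [Polynomial.coeff_map] at hc
      rw [← hc]
      exact isAlgebraic_algebraMap c
    have hlift2 : f ∈ Polynomial.lifts (algebraMap L0 L) := by
      rw [Polynomial.lifts_iff_coeff_lifts]
      intro n
      exact ⟨⟨f.coeff n, hcoef n⟩, rfl⟩
    rw [Polynomial.mem_lifts] at hlift2
    obtain ⟨p, hp⟩ := hlift2
    refine ⟨p, ?_, ?_⟩
    · rintro rfl
      rw [Polynomial.map_zero] at hp
      exact minpoly.ne_zero hint hp.symm
    · have h3 : Polynomial.aeval v (p.map (algebraMap L0 L)) = 0 := by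
        rw [hp]
        exact minpoly.aeval L v
      rwa [Polynomial.aeval_map_algebraMap] at h3
  refine ⟨h1, ?_⟩
  -- part 2
  set A0 := algebraicClosure L0 Ω with hA0
  set C := algebraicClosure F0 Ω with hC
  have hmemA : ∀ x : Ω, x ∈ A0 ↔ IsAlgebraic L0 x := fun x => mem_algebraicClosure_iff
  have hmemC : ∀ x : Ω, x ∈ C ↔ IsAlgebraic F0 x := fun x => mem_algebraicClosure_iff
  have hFA : F0 ≤ IntermediateField.restrictScalars k A0 := by
    rw [hF0, IntermediateField.adjoin_le_iff]
    intro v hv
    exact (hmemA v).2 (h1 v hv)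
  have hCA : IntermediateField.restrictScalars k C = IntermediateField.restrictScalars k A0 := by
    apply le_antisymm
    · intro x hx
      have hx1 : IsAlgebraic F0 x := (hmemC x).1 hx
      have hx2 : IsAlgebraic A0 x := alg_map (A := F0) (B := A0)
        (IntermediateField.inclusion hFA).toRingHom (fun a => rfl) hx1
      exact (hmemA x).2 (hx2.restrictScalars L0)
    · intro x hx
      have hx1 : IsAlgebraic L0 x := (hmemA x).1 hx
      let i : L0 →+* C :=
        { toFun := fun y => ⟨algebraMap L Ω y, (hmemC _).2 ((hL0 y).1 y.2)⟩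
          map_one' := Subtype.ext (by simp)
          map_mul' := fun y z => Subtype.ext (by simp)
          map_zero' := Subtype.ext (by simp)
          map_add' := fun y z => Subtype.ext (by simp) }
      have hx2 : IsAlgebraic C x := alg_map (A := L0) (B := C) i (fun a => rfl) hx1
      exact (hmemC x).2 (hx2.restrictScalars F0)
  have e1 : Algebra.trdeg k L0 = Algebra.trdeg k A0 := trdeg_alg k L0 A0
  have e2 : Algebra.trdeg k F0 = Algebra.trdeg k C := trdeg_alg k F0 C
  rw [e1, e2]
  exact ((IntermediateField.equivOfEq hCA).trdeg_eq).symm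

end Pool.Agent.N849.JT
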